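import Mathlib
import Pool.Agent.H510R2.Div

set_option autoImplicit false

/-! Task X9 of helper300's project (exact Hardy–Littlewood constants): number of triples whose
discriminant lies in a given set. -/

namespace Pool.Agent.H300R2.EC

open Finset

/-- X9 -/
theorem triples (ε : ℝ) (hε : 0 < ε) : ∃ C : ℝ, ∀ H : ℕ, 1 ≤ H → ∀ S : Finset ℤ,
    ((((Icc (1 : ℤ) H) ×ˢ ((Icc (-(H : ℤ)) H) ×ˢ (Icc (-(H : ℤ)) H))).filter
      (fun t : ℤ × ℤ × ℤ => t.2.2 ≠ 0 ∧ t.2.1 ^ 2 - 4 * t.1 * t.2.2 ∈ S)).card : ℝ) ≤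
      C * S.card * H * (H : ℝ) ^ ε := by
  classical
  obtain ⟨C0, hC0, hdiv⟩ := Pool.Agent.H510R2.divisor_bound (ε / 2) (by positivity)
  refine ⟨3 * (C0 * (4 : ℝ) ^ (ε / 2)), fun H hH S => ?_⟩
  obtain ⟨s, hs⟩ : ∃ s, s = ((Icc (1 : ℤ) H) ×ˢ ((Icc (-(H : ℤ)) H) ×ˢ (Icc (-(H : ℤ)) H))).filter
      (fun t : ℤ × ℤ × ℤ => t.2.2 ≠ 0 ∧ t.2.1 ^ 2 - 4 * t.1 * t.2.2 ∈ S) := ⟨_, rfl⟩
  rw [← hs]
  have hmem : ∀ t : ℤ × ℤ × ℤ, t ∈ s ↔ ((1 ≤ t.1 ∧ t.1 ≤ H) ∧ (-(H : ℤ) ≤ t.2.1 ∧ t.2.1 ≤ H) ∧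
      (-(H : ℤ) ≤ t.2.2 ∧ t.2.2 ≤ H)) ∧ t.2.2 ≠ 0 ∧ t.2.1 ^ 2 - 4 * t.1 * t.2.2 ∈ S := by
    intro t
    rw [hs, mem_filter, mem_product, mem_product, mem_Icc, mem_Icc, mem_Icc]
  have hHr : (1 : ℝ) ≤ H := by exact_mod_cast hH
  have hB0 : 0 ≤ C0 * (4 : ℝ) ^ (ε / 2) * (H : ℝ) ^ ε := by positivity
  obtain ⟨N, hN⟩ : ∃ N : ℕ, N = ⌊C0 * (4 : ℝ) ^ (ε / 2) * (H : ℝ) ^ ε⌋₊ := ⟨_, rfl⟩
  have hNr : (N : ℝ) ≤ C0 * (4 : ℝ) ^ (ε / 2) * (H : ℝ) ^ ε := by
    rw [hN]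
    exact Nat.floor_le hB0
  -- number of divisors
  have hτ : ∀ m : ℕ, 1 ≤ m → m ≤ 4 * H ^ 2 → m.divisors.card ≤ N := by
    intro m hm1 hm2
    rw [hN]
    refine Nat.le_floor ((hdiv m hm1).trans ?_)
    have h1 : (m : ℝ) ^ (ε / 2) ≤ (4 * (H : ℝ) ^ 2) ^ (ε / 2) := by
      refine Real.rpow_le_rpow (Nat.cast_nonneg _) ?_ (by positivity)
      exact_mod_cast hm2
    have h2 : (4 * (H : ℝ) ^ 2) ^ (ε / 2) = (4 : ℝ) ^ (ε / 2) * (H : ℝ) ^ ε := by
      rw [Real.mul_rpow (by norm_num) (by positivity), ← Real.rpow_natCast (H : ℝ) 2,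
        ← Real.rpow_mul (by positivity)]
      congr 2
      push_cast
      ring
    calc C0 * (m : ℝ) ^ (ε / 2) ≤ C0 * ((4 : ℝ) ^ (ε / 2) * (H : ℝ) ^ ε) := by
          rw [← h2]
          exact mul_le_mul_of_nonneg_left h1 hC0.le
      _ = _ := by ring
  have hcard : s.card ≤ N * (S ×ˢ (Icc (-(H : ℤ)) H)).card := by
    refine Finset.card_le_mul_card_image_of_maps_to
      (f := fun t : ℤ × ℤ × ℤ => (t.2.1 ^ 2 - 4 * t.1 * t.2.2, t.2.1)) ?_ N ?_
    · intro t ht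
      have h := (hmem t).1 ht
      rw [mem_product, mem_Icc]
      exact ⟨h.2.2, h.1.2.1⟩
    · rintro ⟨D, b⟩ _
      rcases (s.filter (fun t : ℤ × ℤ × ℤ =>
          (t.2.1 ^ 2 - 4 * t.1 * t.2.2, t.2.1) = (D, b))).eq_empty_or_nonempty with h0 | ⟨t0, ht0⟩
      · rw [h0, card_empty]
        exact Nat.zero_le _
      · rw [mem_filter, Prod.mk.injEq] at ht0
        obtain ⟨ht0s, ht0D, ht0b⟩ := ht0
        have h := (hmem t0).1 ht0s
        obtain ⟨⟨⟨ha1, ha2⟩, ⟨hb1, hb2⟩, hc1, hc2⟩, hc0, _⟩ := h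
        have hm : b ^ 2 - D = 4 * t0.1 * t0.2.2 := by
          rw [← ht0D, ht0b]
          ring
        have hne : b ^ 2 - D ≠ 0 := by
          rw [hm]
          have : t0.1 ≠ 0 := by omega
          positivity
        have hle : (b ^ 2 - D).natAbs ≤ 4 * H ^ 2 := by
          rw [hm, Int.natAbs_mul, Int.natAbs_mul]
          have e1 : t0.1.natAbs ≤ H := by omega
          have e2 : t0.2.2.natAbs ≤ H := by omega
          have e3 : (4 : ℤ).natAbs = 4 := rfl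
          rw [e3]
          nlinarith [Nat.mul_le_mul e1 e2]
        refine le_trans ?_ (hτ (b ^ 2 - D).natAbs (by omega) hle)
        refine Finset.card_le_card_of_injOn (fun t : ℤ × ℤ × ℤ => t.1.natAbs) ?_ ?_
        · intro t ht
          rw [Finset.mem_coe, mem_filter, Prod.mk.injEq] at ht
          obtain ⟨hts, htD, htb⟩ := ht
          rw [Finset.mem_coe, Nat.mem_divisors]
          refine ⟨?_, by omega⟩
          rw [Int.natAbs_dvd_natAbs]
          refine ⟨4 * t.2.2, ?_⟩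
          rw [← htD, ← htb]
          ring
        · intro t ht t' ht' htt
          rw [Finset.mem_coe, mem_filter, Prod.mk.injEq] at ht ht'
          obtain ⟨hts, htD, htb⟩ := ht
          obtain ⟨hts', htD', htb'⟩ := ht'
          have h1 := (hmem t).1 hts
          have h2 := (hmem t').1 hts'
          simp only at htt
          have ea : t.1 = t'.1 := by
            have := h1.1.1.1
            have := h2.1.1.1
            omega
          have eb : t.2.1 = t'.2.1 := by rw [htb, htb']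
          have ec : t.2.2 = t'.2.2 := by
            have h3 : t.1 * t.2.2 = t.1 * t'.2.2 := by
              have h4 : t.2.1 ^ 2 - 4 * t.1 * t.2.2 = t'.2.1 ^ 2 - 4 * t'.1 * t'.2.2 := by
                rw [htD, htD']
              rw [← ea, ← eb] at h4
              linarith
            refine mul_left_cancel₀ ?_ h3
            have := h1.1.1.1
            omega
          exact Prod.ext ea (Prod.ext eb ec)
  have hIcc : (Icc (-(H : ℤ)) H).card ≤ 3 * H := by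
    rw [Int.card_Icc]
    omega
  have h1 : (s.card : ℝ) ≤ N * (S.card * (3 * H)) := by
    have h2 : s.card ≤ N * (S.card * (3 * H)) := by
      refine hcard.trans ?_
      rw [card_product]
      exact Nat.mul_le_mul_left _ (Nat.mul_le_mul_left _ hIcc)
    exact_mod_cast h2
  calc (s.card : ℝ) ≤ N * (S.card * (3 * H)) := h1
    _ ≤ (C0 * (4 : ℝ) ^ (ε / 2) * (H : ℝ) ^ ε) * (S.card * (3 * H)) :=
        mul_le_mul_of_nonneg_right hNr (by positivity)
    _ = _ := by ring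

end Pool.Agent.H300R2.EC
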